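import Pool.Agent.Run7.h283.MK.Lower

/-!
# The exponent of the number of ideals dividing points of small radical
-/

set_option autoImplicit false

namespace Run7.h283.MK

open NumberField IsDedekindDomain Finset Pool.Agent.TH876.Loc
open Pool.Agent.H691R3 (Pl fv fv_na fv_support_finite Nv two_le_Nv)
open Pool.Agent.TH876.KR (log_Nv_pos' log_nn side mem_side df_eq_zero ex df_ex ex_eq_zero
  sum_side_le side_sub side_uniq side_sum mem_sp_iff fiber_small rr rr_sum' rpow_le_exp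
  sum_Nv_rpow_le)

variable {K : Type} [Field K] [NumberField K]

open Classical in
variable (K) in
/-- the number of all ideals -/
theorem ideals_trivial {δ : ℝ} (hδ : 0 < δ) : ∃ C : ℝ, 0 < C ∧ ∀ N : ℝ, 1 ≤ N →
    ∀ E : Finset (Ideal (𝓞 K)), (∀ I ∈ E, I ≠ ⊥ ∧ (Ideal.absNorm I : ℝ) ≤ N) →
    (E.card : ℝ) ≤ C * N ^ (1 + δ) := by
  obtain ⟨Z, hZ⟩ : ∃ Z : ℝ, Z = (Module.finrank ℚ K : ℝ) * ∑' n : ℕ, ((n : ℝ) ^ (1 + δ))⁻¹ :=
    ⟨_, rfl⟩
  refine ⟨Real.exp (2 * Z), Real.exp_pos _, fun N hN E hE => ?_⟩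
  have hN0 : 0 < N := by linarith
  obtain ⟨S, hS⟩ : ∃ S : Finset (Pr K), ∀ I ∈ E, ∀ v : Pr K, v.asIdeal ∣ I → v ∈ S := by
    have hfin : ({v : Pr K | ∃ I ∈ E, v.asIdeal ∣ I}).Finite := by
      have h1 : {v : Pr K | ∃ I ∈ E, v.asIdeal ∣ I} = ⋃ I ∈ E, {v : Pr K | v.asIdeal ∣ I} := by
        ext v
        simp
      rw [h1]
      exact Set.Finite.biUnion (Finset.finite_toSet E) fun I hI => Ideal.finite_factors (hE I hI).1
    exact ⟨hfin.toFinset, fun I hI v hv => by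
      rw [Set.Finite.mem_toFinset]
      exact ⟨I, hI, hv⟩⟩
  have h1 := supp_sum (δ := 1 + δ) (by linarith) S E (fun I hI => ⟨(hE I hI).1, hS I hI⟩)
  have h2 : ∏ v ∈ S, (1 - Nv v ^ (-(1 + δ)))⁻¹ ≤ Real.exp (2 * Z) := by
    have h3 : ∀ v ∈ S, (1 - Nv v ^ (-(1 + δ)))⁻¹ ≤ Real.exp (2 * Nv v ^ (-(1 + δ))) := by
      intro v _
      obtain ⟨y, hy⟩ : ∃ y, y = Nv v ^ (-(1 + δ)) := ⟨_, rfl⟩
      rw [← hy]
      have hy0 : 0 < y := by rw [hy]; exact Real.rpow_pos_of_pos (Nv_pos v) _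
      have hy2 : y ≤ 1 / 2 := by
        rw [hy, Real.rpow_neg (Nv_pos v).le, ← one_div]
        refine one_div_le_one_div_of_le (by norm_num) ?_
        calc (2 : ℝ) ≤ Nv v := two_le_Nv v
          _ = Nv v ^ (1 : ℝ) := (Real.rpow_one _).symm
          _ ≤ _ := Real.rpow_le_rpow_of_exponent_le (one_le_Nv v) (by linarith)
      refine le_trans ?_ (Real.add_one_le_exp _)
      rw [inv_le_iff_one_le_mul₀ (by linarith)]
      nlinarith
    refine (Finset.prod_le_prod (fun v _ => (inv_pos.2 (by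
      linarith [y_lt (show 0 < 1 + δ by linarith) v])).le) h3).trans ?_
    rw [← Real.exp_sum, ← Finset.mul_sum]
    refine Real.exp_le_exp.2 (mul_le_mul_of_nonneg_left ?_ (by norm_num))
    rw [hZ]
    exact sum_Nv_rpow_le (by linarith) S
  have h3 : (E.card : ℝ) ≤ N ^ (1 + δ) * ∑ I ∈ E, (Ideal.absNorm I : ℝ) ^ (-(1 + δ)) := by
    rw [Finset.card_eq_sum_ones, Nat.cast_sum, Finset.mul_sum]
    refine Finset.sum_le_sum fun I hI => ?_
    obtain ⟨a1, a2⟩ := hE I hI
    have hp := absNorm_pos a1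
    rw [Nat.cast_one, Real.rpow_neg hp.le, ← div_eq_mul_inv, one_le_div (by positivity)]
    exact Real.rpow_le_rpow hp.le a2 (by linarith)
  calc (E.card : ℝ) ≤ N ^ (1 + δ) * ∑ I ∈ E, (Ideal.absNorm I : ℝ) ^ (-(1 + δ)) := h3
    _ ≤ N ^ (1 + δ) * Real.exp (2 * Z) :=
        mul_le_mul_of_nonneg_left (h1.trans h2) (by positivity)
    _ = _ := by ring

open Classical in
variable (K) in
/-- **the upper bound** -/
theorem upper_exp {l δ : ℝ} (hl : 0 < l) (hδ : 0 < δ) : ∃ C : ℝ, 0 < C ∧ ∀ N : ℝ, 1 ≤ N →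
    ∀ E : Finset (Ideal (𝓞 K)), (∀ I ∈ E, I ≠ ⊥ ∧ (Ideal.absNorm I : ℝ) ≤ N ∧
      ∃ x : K, Pt x ∧ nn (sp x) ≤ N ^ l ∧ MeetK I x) →
    (E.card : ℝ) ≤ C * N ^ (min 1 (2 * l / 3) + δ) := by
  rcases le_total 1 (2 * l / 3) with h | h
  · obtain ⟨C, hC, h1⟩ := ideals_trivial K hδ
    refine ⟨C, hC, fun N hN E hE => ?_⟩
    rw [min_eq_left h]
    exact h1 N hN E fun I hI => ⟨(hE I hI).1, (hE I hI).2.1⟩
  · obtain ⟨θ, hθ⟩ : ∃ θ : ℝ, θ = δ / (1 + 2 * l) := ⟨_, rfl⟩
    have hθ0 : 0 < θ := by rw [hθ]; positivity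
    obtain ⟨C, hC, h1⟩ := ideals_all K hθ0
    refine ⟨C, hC, fun N hN E hE => ?_⟩
    have hN0 : 0 < N := by linarith
    rw [min_eq_right h]
    refine (h1 N (N ^ l) hN (Real.one_le_rpow hN hl.le) E hE).trans (le_of_eq ?_)
    rw [← Real.rpow_mul hN0.le, ← Real.rpow_mul hN0.le, ← Real.rpow_add hN0, ← Real.rpow_add hN0]
    congr 2
    rw [hθ]
    field_simp
    ring

/-- the ideal of the first two sides -/
noncomputable def nI (x : K) : Ideal (𝓞 K) := ∏ v ∈ sp x, v.asIdeal ^ (ex 0 x v + ex 1 x v)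

theorem nI_ne (x : K) : nI x ≠ ⊥ := by
  unfold nI
  exact Finset.prod_ne_zero_iff.2 fun v _ => pow_ne_zero _ v.ne_bot

theorem ex_zero_of {x : K} (hx : Pt x) {v : Pr K} (hv : v ∉ sp x) (i : Fin 3) : ex i x v = 0 :=
  (ex_eq_zero hx i v).2 fun h => hv (side_sub i x h)

theorem pow_dvd_nI {x : K} (hx : Pt x) (v : Pr K) (k : ℕ) :
    v.asIdeal ^ k ∣ nI x ↔ k ≤ ex 0 x v + ex 1 x v := by
  by_cases hv : v ∈ sp x
  · exact pow_dvd_prod (fun v => ex 0 x v + ex 1 x v) hv k
  · rw [ex_zero_of hx hv, ex_zero_of hx hv]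
    constructor
    · intro h
      by_contra hk
      have h1 : v.asIdeal ∣ nI x := (dvd_pow_self _ (by omega)).trans h
      exact not_dvd_prod (fun v => ex 0 x v + ex 1 x v) hv h1
    · intro h
      have : k = 0 := by omega
      rw [this, pow_zero]
      exact one_dvd _

theorem sum_df_sp {x : K} (hx : Pt x) (i : Fin 3) :
    ∑ v ∈ sp x, df (Sum.inr v : Pl K) i x ≤ hgt x := by
  have h2 : ∑ v ∈ side i x, df (Sum.inr v : Pl K) i x = ∑ v ∈ sp x, df (Sum.inr v : Pl K) i x :=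
    Finset.sum_subset (side_sub i x) fun v _ hv => df_eq_zero hx hv
  rw [← h2]
  exact sum_side_le hx i

theorem absNorm_nI {x : K} (hx : Pt x) : (Ideal.absNorm (nI x) : ℝ) ≤ Real.exp (2 * hgt x) := by
  unfold nI
  rw [absNorm_prod]
  have h1 : ∏ v ∈ sp x, Nv v ^ (ex 0 x v + ex 1 x v) =
      Real.exp (∑ v ∈ sp x, (df (Sum.inr v : Pl K) 0 x + df (Sum.inr v : Pl K) 1 x)) := by
    rw [Real.exp_sum]
    refine Finset.prod_congr rfl fun v _ => ?_
    rw [df_ex hx, df_ex hx, ← add_mul, ← Nat.cast_add, Real.exp_nat_mul, Real.exp_log (Nv_pos v)]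
  rw [h1, Finset.sum_add_distrib]
  refine Real.exp_le_exp.2 ?_
  have := sum_df_sp hx 0
  have := sum_df_sp hx 1
  linarith

theorem rr_le_hgt {x : K} (hx : Pt x) (i : Fin 3) : rr i x ≤ hgt x := by
  refine le_trans ?_ (sum_side_le hx i)
  unfold rr
  refine Finset.sum_le_sum fun v hv => ?_
  rw [df_ex hx]
  have h1 : ex i x v ≠ 0 := fun h => ((ex_eq_zero hx i v).1 h) hv
  have h2 : (1 : ℝ) ≤ ex i x v := by exact_mod_cast Nat.one_le_iff_ne_zero.2 h1
  exact le_mul_of_one_le_left (log_Nv_pos' v).le h2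

theorem nn_sp_le {x : K} (hx : Pt x) : nn (sp x) ≤ Real.exp (3 * hgt x) := by
  have h1 := rr_sum' hx
  have h2 := rr_le_hgt hx 0
  have h3 := rr_le_hgt hx 1
  have h4 := rr_le_hgt hx 2
  rw [← Real.log_le_iff_le_exp (nn_pos _), ← h1]
  linarith

open Classical in
variable (K) in
/-- few points have the same ideal -/
theorem fibre_nI {δ : ℝ} (hδ : 0 < δ) : ∃ C : ℝ, 0 < C ∧ ∀ H : ℝ, 1 ≤ H → ∀ J : Ideal (𝓞 K),
    ∀ F : Finset K, (∀ x ∈ F, Pt x ∧ hgt x ≤ Real.log H ∧ nI x = J) →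
    (F.card : ℝ) ≤ C * H ^ δ := by
  obtain ⟨C1, hC1, h1⟩ := supp_count K (δ := δ / 6) (by positivity)
  obtain ⟨C2, hC2, h2⟩ := fiber_small K
  obtain ⟨D, hD, h3⟩ := rpow_le_exp (c := C2) (δ := δ / 2) (by linarith) (by positivity)
  refine ⟨C1 * (C2 * (D * Real.exp (δ / 2))), by positivity, fun H hH J F hF => ?_⟩
  have hH0 : 0 < H := by linarith
  have hlH : 0 ≤ Real.log H := Real.log_nonneg hH
  obtain ⟨B, hB⟩ : ∃ B, B = 1 + Real.log H := ⟨_, rfl⟩
  have hB1 : 1 ≤ B := by rw [hB]; linarith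
  obtain ⟨g, hg⟩ : ∃ g : K → Ideal (𝓞 K), g = fun x => ∏ v ∈ side 0 x, v.asIdeal ^ 1 := ⟨_, rfl⟩
  have hgne : ∀ x, g x ≠ ⊥ := by
    intro x
    rw [hg]
    exact Finset.prod_ne_zero_iff.2 fun v _ => pow_ne_zero _ v.ne_bot
  have hginj : ∀ x y, g x = g y → side 0 x = side 0 y := by
    have key : ∀ x y, g x = g y → side 0 x ⊆ side 0 y := by
      intro x y hxy v hv
      by_contra hcon
      rw [hg] at hxy
      simp only at hxy
      have h4 : v.asIdeal ∣ ∏ v ∈ side 0 x, v.asIdeal ^ 1 := by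
        have := (pow_dvd_prod (S := side 0 x) (fun _ => 1) hv 1).2 le_rfl
        rwa [pow_one] at this
      rw [hxy] at h4
      exact not_dvd_prod (fun _ => 1) hcon h4
    exact fun x y h => Finset.Subset.antisymm (key x y h) (key y x h.symm)
  -- the fibres of `g`
  have hfib : ∀ b ∈ F.image g, (((F.filter fun x => g x = b).card : ℕ) : ℝ) ≤ C2 * B ^ C2 := by
    intro b _
    refine h2 B hB1 0 1 (by decide) _ (fun x hx => ?_) ?_
    · obtain ⟨c1, _⟩ := Finset.mem_filter.1 hx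
      refine ⟨(hF x c1).1, ?_⟩
      have := (hF x c1).2.1
      rw [hB]
      linarith
    · intro x hx y hy v
      obtain ⟨c1, c2⟩ := Finset.mem_filter.1 hx
      obtain ⟨d1, d2⟩ := Finset.mem_filter.1 hy
      obtain ⟨px, _, jx⟩ := hF x c1
      obtain ⟨py, _, jy⟩ := hF y d1
      have hs : side 0 x = side 0 y := hginj x y (c2.trans d2.symm)
      have hsum : ex 0 x v + ex 1 x v = ex 0 y v + ex 1 y v := by
        refine le_antisymm ?_ ?_
        · rw [← pow_dvd_nI py, jy, ← jx, pow_dvd_nI px]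
        · rw [← pow_dvd_nI px, jx, ← jy, pow_dvd_nI py]
      have hex : ex 0 x v = ex 0 y v ∧ ex 1 x v = ex 1 y v := by
        by_cases hv : v ∈ side 0 x
        · have hvy : v ∈ side 0 y := by rw [← hs]; exact hv
          have e1 : ex 1 x v = 0 := (ex_eq_zero px 1 v).2 fun h => by
            have := side_uniq hv h
            exact absurd this (by decide)
          have e2 : ex 1 y v = 0 := (ex_eq_zero py 1 v).2 fun h => by
            have := side_uniq hvy h
            exact absurd this (by decide)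
          rw [e1, e2] at hsum ⊢
          exact ⟨by omega, rfl⟩
        · have hvy : v ∉ side 0 y := by rw [← hs]; exact hv
          have e1 : ex 0 x v = 0 := (ex_eq_zero px 0 v).2 hv
          have e2 : ex 0 y v = 0 := (ex_eq_zero py 0 v).2 hvy
          rw [e1, e2] at hsum ⊢
          exact ⟨rfl, by omega⟩
      rw [df_ex px, df_ex py, df_ex px, df_ex py, hex.1, hex.2]
      exact ⟨rfl, rfl⟩
  have hcardF : (F.card : ℝ) ≤ ((F.image g).card : ℝ) * (C2 * B ^ C2) := by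
    rw [Finset.card_eq_sum_card_image g F, Nat.cast_sum]
    refine (Finset.sum_le_sum hfib).trans ?_
    rw [Finset.sum_const, nsmul_eq_mul]
  -- the image of `g`
  rcases F.eq_empty_or_nonempty with he | ⟨x0, hx0⟩
  · rw [he, Finset.card_empty, Nat.cast_zero]
    positivity
  have himg : ((F.image g).card : ℝ) ≤ C1 * H ^ (δ / 2) := by
    obtain ⟨p0, q0, j0⟩ := hF x0 hx0
    obtain ⟨S, hS⟩ : ∃ S : Finset (Pr K), S = (sp x0).filter fun v => v.asIdeal ∣ J := ⟨_, rfl⟩
    have hnS : nn S ≤ Real.exp (2 * hgt x0) := by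
      have e1 : nn S ≤ (Ideal.absNorm J : ℝ) := by
        have e2 : J = ∏ v ∈ S, v.asIdeal ^ ev J v := by
          refine eq_prod (by rw [← j0]; exact nI_ne x0) fun v hv => ?_
          rw [hS]
          refine Finset.mem_filter.2 ⟨?_, hv⟩
          by_contra hcon
          rw [← j0] at hv
          exact not_dvd_prod (fun v => ex 0 x0 v + ex 1 x0 v) hcon hv
        rw [e2, absNorm_prod]
        unfold nn
        refine Finset.prod_le_prod (fun v _ => (Nv_pos v).le) fun v hv => ?_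
        have e3 : ev J v ≠ 0 := by
          rw [ev_ne_zero_iff (by rw [← j0]; exact nI_ne x0)]
          rw [hS] at hv
          exact (Finset.mem_filter.1 hv).2
        calc Nv v = Nv v ^ 1 := (pow_one _).symm
          _ ≤ Nv v ^ ev J v := pow_le_pow_right₀ (one_le_Nv v) (Nat.one_le_iff_ne_zero.2 e3)
      refine e1.trans ?_
      rw [← j0]
      exact absNorm_nI p0
    have hH2 : nn S ≤ H ^ 2 := by
      refine hnS.trans ?_
      rw [← Real.exp_log hH0, ← Real.exp_nat_mul]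
      refine Real.exp_le_exp.2 ?_
      push_cast
      linarith
    have b1 := h1 H hH0.le S (F.image g) (fun I hI => by
      obtain ⟨x, hx, rfl⟩ := Finset.mem_image.1 hI
      obtain ⟨px, qx, jx⟩ := hF x hx
      refine ⟨hgne x, ?_, fun v hv => ?_⟩
      · have e1 : (Ideal.absNorm (g x) : ℝ) = ∏ v ∈ side 0 x, Nv v ^ 1 := by
          rw [hg]
          exact absNorm_prod (side 0 x) fun _ => 1
        have e2 : ∏ v ∈ side 0 x, Nv v ^ 1 = Real.exp (rr 0 x) := by
          unfold rr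
          rw [Real.exp_sum]
          refine Finset.prod_congr rfl fun v _ => ?_
          rw [pow_one, Real.exp_log (Nv_pos v)]
        rw [e1, e2, ← Real.le_log_iff_exp_le hH0]
        exact (rr_le_hgt px 0).trans qx
      · have hv0 : v ∈ side 0 x := by
          by_contra hcon
          rw [hg] at hv
          exact not_dvd_prod (fun _ => 1) hcon hv
        have hvJ : v.asIdeal ∣ J := by
          rw [← jx]
          have := (pow_dvd_nI px v 1).2 (by
            have : ex 0 x v ≠ 0 := fun h => ((ex_eq_zero px 0 v).1 h) hv0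
            omega)
          rwa [pow_one] at this
        rw [hS]
        refine Finset.mem_filter.2 ⟨?_, hvJ⟩
        by_contra hcon
        rw [← j0] at hvJ
        exact not_dvd_prod (fun v => ex 0 x0 v + ex 1 x0 v) hcon hvJ)
    refine b1.trans (mul_le_mul_of_nonneg_left ?_ (by linarith))
    calc H ^ (δ / 6) * nn S ^ (δ / 6) ≤ H ^ (δ / 6) * (H ^ 2) ^ (δ / 6) :=
          mul_le_mul_of_nonneg_left (Real.rpow_le_rpow (nn_pos _).le hH2 (by positivity))
            (by positivity)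
      _ = H ^ (δ / 2) := by
          rw [← Real.rpow_natCast H 2, ← Real.rpow_mul hH0.le, ← Real.rpow_add hH0]
          congr 1
          push_cast
          ring
  have hBC : B ^ C2 ≤ D * Real.exp (δ / 2) * H ^ (δ / 2) := by
    refine (h3 B hB1).trans (le_of_eq ?_)
    rw [hB, mul_add, mul_one, Real.exp_add, Real.rpow_def_of_pos hH0, mul_comm (Real.log H)]
    ring
  calc (F.card : ℝ) ≤ ((F.image g).card : ℝ) * (C2 * B ^ C2) := hcardF
    _ ≤ (C1 * H ^ (δ / 2)) * (C2 * (D * Real.exp (δ / 2) * H ^ (δ / 2))) := by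
        refine mul_le_mul himg (mul_le_mul_of_nonneg_left hBC (by linarith)) (by positivity)
          (by positivity)
    _ = C1 * (C2 * (D * Real.exp (δ / 2))) * (H ^ (δ / 2) * H ^ (δ / 2)) := by ring
    _ = _ := by
        rw [← Real.rpow_add hH0]
        congr 2
        ring

open Classical in
variable (K) in
/-- **the lower bound** -/
theorem lower_exp {l δ : ℝ} (hl : 0 < l) (hδ : 0 < δ) : ∃ N0 : ℝ, 1 ≤ N0 ∧ ∀ N : ℝ, N0 ≤ N →
    ∃ E : Finset (Ideal (𝓞 K)), (∀ I ∈ E, I ≠ ⊥ ∧ (Ideal.absNorm I : ℝ) ≤ N ∧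
      ∃ x : K, Pt x ∧ nn (sp x) ≤ N ^ l ∧
        ∀ (v : Pr K) (k : ℕ), v.asIdeal ^ k ∣ I → k ≤ ex 0 x v + ex 1 x v) ∧
    N ^ (min 1 (2 * l / 3) - δ) ≤ (E.card : ℝ) := by
  obtain ⟨m, hm⟩ : ∃ m, m = min 1 (2 * l / 3) := ⟨_, rfl⟩
  have hm0 : 0 < m := by rw [hm]; exact lt_min one_pos (by positivity)
  have hm1 : m ≤ 1 := by rw [hm]; exact min_le_left _ _
  have hm2 : m ≤ 2 * l / 3 := by rw [hm]; exact min_le_right _ _
  obtain ⟨H0, hH0, hpts⟩ := points_hgt K (δ / 2) (by positivity)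
  obtain ⟨C, hC, hfib⟩ := fibre_nI K (δ := δ / 2) (by positivity)
  refine ⟨max (max 1 (H0 ^ (2 / m))) (C ^ (2 / (δ * m))), le_max_of_le_left (le_max_left _ _),
    fun N hN => ?_⟩
  have hN1 : 1 ≤ N := (le_max_of_le_left (le_max_left _ _)).trans hN
  have hN2 : H0 ^ (2 / m) ≤ N := (le_max_of_le_left (le_max_right _ _)).trans hN
  have hN3 : C ^ (2 / (δ * m)) ≤ N := (le_max_right _ _).trans hN
  have hN0 : 0 < N := by linarith
  have hH00 : 0 < H0 := by linarith
  obtain ⟨H, hH⟩ : ∃ H : ℝ, H = N ^ (m / 2) := ⟨_, rfl⟩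
  have hHp : 0 < H := by rw [hH]; positivity
  have hHH : H0 ≤ H := by
    have h1 := Real.rpow_le_rpow (by positivity) hN2 (z := m / 2) (by positivity)
    rw [← Real.rpow_mul hH00.le] at h1
    have h2 : 2 / m * (m / 2) = 1 := by field_simp
    rw [h2, Real.rpow_one] at h1
    rw [hH]
    exact h1
  have hH1 : 1 ≤ H := hH0.trans hHH
  have hlH : Real.log H = m / 2 * Real.log N := by rw [hH, Real.log_rpow hN0]
  have hlN : 0 ≤ Real.log N := Real.log_nonneg hN1
  obtain ⟨F, hF, hFc⟩ := hpts H hHH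
  refine ⟨F.image nI, fun I hI => ?_, ?_⟩
  · obtain ⟨x, hx, rfl⟩ := Finset.mem_image.1 hI
    obtain ⟨px, qx⟩ := hF x hx
    rw [hlH] at qx
    refine ⟨nI_ne x, (absNorm_nI px).trans ?_, x, px, (nn_sp_le px).trans ?_, fun v k hk =>
      (pow_dvd_nI px v k).1 hk⟩
    · rw [← Real.le_log_iff_exp_le hN0]
      nlinarith
    · rw [← Real.le_log_iff_exp_le (by positivity), Real.log_rpow hN0]
      nlinarith
  · have h1 : (F.card : ℝ) ≤ ((F.image nI).card : ℝ) * (C * H ^ (δ / 2)) := by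
      rw [Finset.card_eq_sum_card_image nI F, Nat.cast_sum]
      refine (Finset.sum_le_sum fun J _ => hfib H hH1 J _ fun x hx => ?_).trans ?_
      · obtain ⟨c1, c2⟩ := Finset.mem_filter.1 hx
        exact ⟨(hF x c1).1, (hF x c1).2, c2⟩
      · rw [Finset.sum_const, nsmul_eq_mul]
    have h2 : C ≤ H ^ δ := by
      have h3 := Real.rpow_le_rpow (by positivity) hN3 (z := δ * m / 2) (by positivity)
      rw [← Real.rpow_mul hC.le] at h3
      have h4 : 2 / (δ * m) * (δ * m / 2) = 1 := by field_simp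
      rw [h4, Real.rpow_one] at h3
      rw [hH, ← Real.rpow_mul hN0.le]
      have h5 : m / 2 * δ = δ * m / 2 := by ring
      rw [h5]
      exact h3
    have h3 : H ^ (2 - δ / 2) ≤ ((F.image nI).card : ℝ) * (H ^ δ * H ^ (δ / 2)) :=
      hFc.trans (h1.trans (mul_le_mul_of_nonneg_left
        (mul_le_mul_of_nonneg_right h2 (by positivity)) (Nat.cast_nonneg _)))
    have h4 : H ^ (2 - 2 * δ) ≤ ((F.image nI).card : ℝ) := by
      have e1 : H ^ (2 - δ / 2) = H ^ (2 - 2 * δ) * (H ^ δ * H ^ (δ / 2)) := by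
        rw [← Real.rpow_add hHp, ← Real.rpow_add hHp]
        congr 1
        ring
      rw [e1] at h3
      exact le_of_mul_le_mul_right h3 (by positivity)
    refine le_trans ?_ h4
    rw [hH, ← Real.rpow_mul hN0.le, ← hm]
    refine Real.rpow_le_rpow_of_exponent_le hN1 ?_
    nlinarith

end Run7.h283.MK
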