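import Pool.Agent.Run7.h283.MK.Prime

/-!
# Ideals dividing points of small radical: upper bounds

Ideals all of whose primes occur in a point of small radical.
-/

set_option autoImplicit false

namespace Run7.h283.MK

open NumberField IsDedekindDomain Finset Pool.Agent.H691R3 Pool.Agent.TH876.Loc

variable {K : Type} [Field K] [NumberField K]

/-- all primes dividing the ideal occur in the point -/
def MeetK (I : Ideal (𝓞 K)) (x : K) : Prop := ∀ v : Pr K, v.asIdeal ∣ I → v ∈ sp x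

open Classical in
variable (K) in
/-- the number of ideals attached to the same point -/
theorem fibre_bound {δ : ℝ} (hδ : 0 < δ) : ∃ C : ℝ, 1 ≤ C ∧ ∀ N X : ℝ, 0 ≤ N → 1 ≤ X →
    ∀ (E : Finset (Ideal (𝓞 K))) (f : Ideal (𝓞 K) → K), (∀ I ∈ E, I ≠ ⊥ ∧
      (Ideal.absNorm I : ℝ) ≤ N ∧ nn (sp (f I)) ≤ X ∧ MeetK I (f I)) →
    (E.card : ℝ) ≤ C * (N ^ δ * X ^ δ) * ((E.image f).card : ℝ) := by
  obtain ⟨C, hC1, hC⟩ := supp_count K hδ
  refine ⟨C, hC1, fun N X hN hX E f hE => ?_⟩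
  rw [Finset.card_eq_sum_card_image f E, Nat.cast_sum]
  have h1 : ∀ x ∈ E.image f, (((E.filter fun I => f I = x).card : ℕ) : ℝ) ≤
      C * (N ^ δ * X ^ δ) := by
    intro x hx
    obtain ⟨J, hJ, rfl⟩ := Finset.mem_image.1 hx
    have h2 := hC N hN (sp (f J)) (E.filter fun I => f I = f J) (fun I hI => by
      obtain ⟨a1, a2⟩ := Finset.mem_filter.1 hI
      obtain ⟨b1, b2, _, b4⟩ := hE I a1
      refine ⟨b1, b2, fun v hv => ?_⟩
      rw [← a2]
      exact b4 v hv)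
    refine h2.trans (mul_le_mul_of_nonneg_left ?_ (by linarith))
    refine mul_le_mul_of_nonneg_left ?_ (Real.rpow_nonneg hN _)
    exact Real.rpow_le_rpow (nn_pos _).le (hE J hJ).2.2.1 hδ.le
  refine (Finset.sum_le_sum h1).trans ?_
  rw [Finset.sum_const, nsmul_eq_mul, mul_comm]

open Classical in
variable (K) in
/-- **ideals which occur in a point of radical at most `X`** -/
theorem ideals_all {δ : ℝ} (hδ : 0 < δ) : ∃ C : ℝ, 0 < C ∧ ∀ N X : ℝ, 1 ≤ N → 1 ≤ X →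
    ∀ E : Finset (Ideal (𝓞 K)), (∀ I ∈ E, I ≠ ⊥ ∧ (Ideal.absNorm I : ℝ) ≤ N ∧
      ∃ x : K, Pt x ∧ nn (sp x) ≤ X ∧ MeetK I x) →
    (E.card : ℝ) ≤ C * (N ^ δ * X ^ δ * X ^ (2 / 3 + δ)) := by
  obtain ⟨C, hC1, hC⟩ := fibre_bound K hδ
  obtain ⟨D, hD, hmain⟩ := Pool.Agent.Y728.mainK K δ hδ
  refine ⟨C * D, by positivity, fun N X hN hX E hE => ?_⟩
  have hex : ∀ I : Ideal (𝓞 K), ∃ x : K, I ∈ E → Pt x ∧ nn (sp x) ≤ X ∧ MeetK I x := by
    intro I
    by_cases hI : I ∈ E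
    · obtain ⟨_, _, x, hx⟩ := hE I hI
      exact ⟨x, fun _ => hx⟩
    · exact ⟨0, fun h => absurd h hI⟩
  choose f hf using hex
  have h1 := hC N X (by linarith) hX E f (fun I hI =>
    ⟨(hE I hI).1, (hE I hI).2.1, (hf I hI).2.1, (hf I hI).2.2⟩)
  have h2 := hmain X hX (E.image f) (fun x hx => by
    obtain ⟨I, hI, rfl⟩ := Finset.mem_image.1 hx
    exact ⟨(hf I hI).1, (hf I hI).2.1⟩)
  have hp : 0 ≤ C * (N ^ δ * X ^ δ) := by positivity
  calc (E.card : ℝ) ≤ C * (N ^ δ * X ^ δ) * ((E.image f).card : ℝ) := h1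
    _ ≤ C * (N ^ δ * X ^ δ) * (D * X ^ (2 / 3 + δ)) := mul_le_mul_of_nonneg_left h2 hp
    _ = _ := by ring

open Classical in
variable (K) in
/-- **ideals with a large prime which occur in a point of radical at most `X`** -/
theorem ideals_prime {δ : ℝ} (hδ : 0 < δ) : ∃ C : ℝ, 0 < C ∧ ∀ N X Y : ℝ, 1 ≤ N → 1 ≤ X → 1 ≤ Y →
    ∀ E : Finset (Ideal (𝓞 K)), (∀ I ∈ E, I ≠ ⊥ ∧ (Ideal.absNorm I : ℝ) ≤ N ∧
      (∃ p : Pr K, p.asIdeal ∣ I ∧ Y ≤ Nv p) ∧ ∃ x : K, Pt x ∧ nn (sp x) ≤ X ∧ MeetK I x) →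
    (E.card : ℝ) ≤ C * (N ^ δ * X ^ δ * (X ^ δ * (X / Y))) := by
  obtain ⟨C, hC1, hC⟩ := fibre_bound K hδ
  obtain ⟨D, hD, hmain⟩ := prime_allK K δ hδ
  refine ⟨C * D, by positivity, fun N X Y hN hX hY E hE => ?_⟩
  have hex : ∀ I : Ideal (𝓞 K), ∃ x : K, I ∈ E → Pt x ∧ nn (sp x) ≤ X ∧ MeetK I x := by
    intro I
    by_cases hI : I ∈ E
    · obtain ⟨_, _, _, x, hx⟩ := hE I hI
      exact ⟨x, fun _ => hx⟩
    · exact ⟨0, fun h => absurd h hI⟩
  choose f hf using hex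
  have h1 := hC N X (by linarith) hX E f (fun I hI =>
    ⟨(hE I hI).1, (hE I hI).2.1, (hf I hI).2.1, (hf I hI).2.2⟩)
  have h2 := hmain X Y hX hY (E.image f) (fun x hx => by
    obtain ⟨I, hI, rfl⟩ := Finset.mem_image.1 hx
    obtain ⟨_, _, ⟨p, hp, hpY⟩, _⟩ := hE I hI
    exact ⟨(hf I hI).1, (hf I hI).2.1, p, (hf I hI).2.2 p hp, hpY⟩)
  have hp : 0 ≤ C * (N ^ δ * X ^ δ) := by positivity
  calc (E.card : ℝ) ≤ C * (N ^ δ * X ^ δ) * ((E.image f).card : ℝ) := h1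
    _ ≤ C * (N ^ δ * X ^ δ) * (D * (X ^ δ * (X / Y))) := mul_le_mul_of_nonneg_left h2 hp
    _ = _ := by ring

/-- the norm of a prime factor -/
theorem Nv_le_absNorm {I : Ideal (𝓞 K)} (hI : I ≠ ⊥) {p : Pr K} (hp : p.asIdeal ∣ I) :
    Nv p ≤ (Ideal.absNorm I : ℝ) := by
  obtain ⟨J, rfl⟩ := hp
  have hJ : J ≠ ⊥ := by
    rintro rfl
    exact hI (by rw [Ideal.mul_bot])
  have h1 := one_le_absNorm hJ
  rw [map_mul, Nat.cast_mul]
  have h2 := Nv_pos p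
  have h3 : Nv p = (Ideal.absNorm p.asIdeal : ℝ) := rfl
  rw [← h3]
  exact le_mul_of_one_le_right h2.le h1

open Classical in
variable (K) in
/-- **for almost all ideals the radical is large** -/
theorem almost_all {ε : ℝ} (hε : 0 < ε) (hε1 : ε ≤ 1) : ∃ C : ℝ, 0 < C ∧ ∀ N : ℝ, 1 ≤ N →
    ∀ E : Finset (Ideal (𝓞 K)), (∀ I ∈ E, I ≠ ⊥ ∧ (Ideal.absNorm I : ℝ) ≤ N ∧
      ∃ x : K, Pt x ∧ MeetK I x ∧ (nn (sp x) ≤ (Ideal.absNorm I : ℝ) ^ (3 / 2 - ε) ∨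
        ∃ p : Pr K, p.asIdeal ∣ I ∧ nn (sp x) ≤ (Ideal.absNorm I : ℝ) ^ (1 - ε) * Nv p)) →
    (E.card : ℝ) ≤ C * N ^ (1 - ε / 2) := by
  obtain ⟨δ, hδ⟩ : ∃ δ : ℝ, δ = ε / 24 := ⟨_, rfl⟩
  have hδ0 : 0 < δ := by rw [hδ]; positivity
  obtain ⟨C1, hC1, h1⟩ := ideals_all K hδ0
  obtain ⟨C2, hC2, h2⟩ := ideals_prime K hδ0
  obtain ⟨J0, hJ0⟩ : ∃ J0 : ℝ, J0 = 1 + 1 / (δ * Real.log 2) := ⟨_, rfl⟩
  have hl2 : 0 < Real.log 2 := Real.log_pos (by norm_num)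
  have hJ00 : 0 < J0 := by rw [hJ0]; positivity
  refine ⟨C1 + J0 * (C2 * 8), by positivity, fun N hN E hE => ?_⟩
  have hN0 : 0 < N := by linarith
  obtain ⟨E1, hE1⟩ : ∃ E1, E1 = E.filter fun I => ∃ x : K, Pt x ∧ MeetK I x ∧
      nn (sp x) ≤ (Ideal.absNorm I : ℝ) ^ (3 / 2 - ε) := ⟨_, rfl⟩
  obtain ⟨G, hG⟩ : ∃ G : ℕ → Finset (Ideal (𝓞 K)), G = fun j => E.filter fun I =>
      ∃ x : K, Pt x ∧ MeetK I x ∧ ∃ p : Pr K, p.asIdeal ∣ I ∧
        nn (sp x) ≤ (Ideal.absNorm I : ℝ) ^ (1 - ε) * Nv p ∧ (2 : ℝ) ^ j ≤ Nv p ∧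
          Nv p < 2 ^ (j + 1) := ⟨_, rfl⟩
  obtain ⟨J, hJ⟩ : ∃ J : ℕ, J = ⌊Real.log N / Real.log 2⌋₊ := ⟨_, rfl⟩
  have hlN : 0 ≤ Real.log N := Real.log_nonneg hN
  have hcov : E ⊆ E1 ∪ (Finset.range (J + 1)).biUnion G := by
    intro I hI
    obtain ⟨a1, a2, x, a3, a4, a5⟩ := hE I hI
    rcases a5 with a5 | ⟨p, a5, a6⟩
    · refine Finset.mem_union_left _ ?_
      rw [hE1]
      exact Finset.mem_filter.2 ⟨hI, x, a3, a4, a5⟩
    · refine Finset.mem_union_right _ ?_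
      obtain ⟨j, hj1, hj2⟩ := exists_nat_pow_near (one_le_Nv p) (by norm_num : (1 : ℝ) < 2)
      have hpN : Nv p ≤ N := (Nv_le_absNorm a1 a5).trans a2
      rw [Finset.mem_biUnion]
      refine ⟨j, ?_, ?_⟩
      · rw [Finset.mem_range, Nat.lt_succ_iff, hJ]
        refine Nat.le_floor ?_
        rw [le_div_iff₀ hl2, ← Real.log_pow]
        exact Real.log_le_log (by positivity) (hj1.trans hpN)
      · rw [hG]
        exact Finset.mem_filter.2 ⟨hI, x, a3, a4, p, a5, a6, hj1, hj2⟩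
  -- first part
  have d1 : (E1.card : ℝ) ≤ C1 * N ^ (1 - ε / 2) := by
    have hX1 : 1 ≤ N ^ (3 / 2 - ε) := Real.one_le_rpow hN (by linarith)
    have b1 := h1 N (N ^ (3 / 2 - ε)) hN hX1 E1 (fun I hI => by
      rw [hE1] at hI
      obtain ⟨c1, x, c2, c3, c4⟩ := Finset.mem_filter.1 hI
      obtain ⟨a1, a2, _⟩ := hE I c1
      refine ⟨a1, a2, x, c2, c4.trans ?_, c3⟩
      exact Real.rpow_le_rpow (absNorm_pos a1).le a2 (by linarith))
    refine b1.trans (mul_le_mul_of_nonneg_left ?_ hC1.le)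
    rw [← Real.rpow_mul hN0.le, ← Real.rpow_mul hN0.le, ← Real.rpow_add hN0, ← Real.rpow_add hN0]
    refine Real.rpow_le_rpow_of_exponent_le hN ?_
    have h3 : 0 ≤ ε * ε := by positivity
    rw [hδ]
    nlinarith
  -- second part
  have d2 : ∀ j ∈ Finset.range (J + 1), ((G j).card : ℝ) ≤ C2 * 8 * N ^ (1 - ε + 6 * δ) := by
    intro j hj
    rw [Finset.mem_range, Nat.lt_succ_iff] at hj
    have h2j : (2 : ℝ) ^ j ≤ N := by
      have e1 : (j : ℝ) ≤ Real.log N / Real.log 2 := by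
        refine le_trans ?_ (Nat.floor_le (by positivity))
        rw [← hJ]
        exact_mod_cast hj
      rw [le_div_iff₀ hl2, ← Real.log_pow] at e1
      exact (Real.log_le_log_iff (by positivity) hN0).1 e1
    have h1j : (1 : ℝ) ≤ 2 ^ j := one_le_pow₀ (by norm_num)
    obtain ⟨X, hX⟩ : ∃ X : ℝ, X = N ^ (1 - ε) * 2 ^ (j + 1) := ⟨_, rfl⟩
    have hNε : 1 ≤ N ^ (1 - ε) := Real.one_le_rpow hN (by linarith)
    have h2j1 : (1 : ℝ) ≤ 2 ^ (j + 1) := one_le_pow₀ (by norm_num)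
    have hX1 : 1 ≤ X := by rw [hX]; exact one_le_mul_of_one_le_of_one_le hNε h2j1
    have hX0 : 0 < X := by linarith
    have hXN : X ≤ 2 * N ^ (2 : ℝ) := by
      have e1 : N ^ (1 - ε) ≤ N := by
        calc N ^ (1 - ε) ≤ N ^ (1 : ℝ) := Real.rpow_le_rpow_of_exponent_le hN (by linarith)
          _ = N := Real.rpow_one N
      rw [hX, Real.rpow_two]
      calc N ^ (1 - ε) * 2 ^ (j + 1) ≤ N * (2 * N) := by
            refine mul_le_mul e1 ?_ (by positivity) hN0.le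
            rw [pow_succ]
            linarith
        _ = 2 * N ^ 2 := by ring
    have b1 := h2 N X (2 ^ j) hN hX1 h1j (G j) (fun I hI => by
      rw [hG] at hI
      obtain ⟨c1, x, c2, c3, p, c4, c5, c6, c7⟩ := Finset.mem_filter.1 hI
      obtain ⟨a1, a2, _⟩ := hE I c1
      refine ⟨a1, a2, ⟨p, c4, c6⟩, x, c2, c5.trans ?_, c3⟩
      rw [hX]
      refine mul_le_mul ?_ c7.le (Nv_pos p).le (by positivity)
      exact Real.rpow_le_rpow (absNorm_pos a1).le a2 (by linarith))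
    refine b1.trans ?_
    have e1 : X / 2 ^ j = 2 * N ^ (1 - ε) := by
      rw [hX, pow_succ]
      field_simp
    have e2 : X ^ δ ≤ 2 * N ^ (2 * δ) := by
      calc X ^ δ ≤ (2 * N ^ (2 : ℝ)) ^ δ := Real.rpow_le_rpow hX0.le hXN hδ0.le
        _ = 2 ^ δ * N ^ (2 * δ) := by
            rw [Real.mul_rpow (by norm_num) (by positivity), ← Real.rpow_mul hN0.le]
        _ ≤ 2 * N ^ (2 * δ) := by
            refine mul_le_mul_of_nonneg_right ?_ (by positivity)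
            calc (2 : ℝ) ^ δ ≤ 2 ^ (1 : ℝ) :=
                  Real.rpow_le_rpow_of_exponent_le (by norm_num) (by rw [hδ]; linarith)
              _ = 2 := Real.rpow_one 2
    have hXδ : 0 ≤ X ^ δ := by positivity
    calc C2 * (N ^ δ * X ^ δ * (X ^ δ * (X / 2 ^ j)))
        = C2 * (N ^ δ * (X ^ δ * X ^ δ) * (2 * N ^ (1 - ε))) := by rw [e1]; ring
      _ ≤ C2 * (N ^ δ * ((2 * N ^ (2 * δ)) * (2 * N ^ (2 * δ))) * (2 * N ^ (1 - ε))) := by
          refine mul_le_mul_of_nonneg_left ?_ hC2.le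
          refine mul_le_mul_of_nonneg_right ?_ (by positivity)
          refine mul_le_mul_of_nonneg_left ?_ (by positivity)
          exact mul_le_mul e2 e2 hXδ (by positivity)
      _ = C2 * 8 * (N ^ δ * N ^ (2 * δ) * N ^ (2 * δ) * N ^ (1 - ε)) := by ring
      _ = C2 * 8 * N ^ (1 - ε + 5 * δ) := by
          rw [← Real.rpow_add hN0, ← Real.rpow_add hN0, ← Real.rpow_add hN0]
          congr 2
          ring
      _ ≤ C2 * 8 * N ^ (1 - ε + 6 * δ) := by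
          refine mul_le_mul_of_nonneg_left ?_ (by positivity)
          exact Real.rpow_le_rpow_of_exponent_le hN (by linarith)
  have hJ1 : ((J + 1 : ℕ) : ℝ) ≤ J0 * N ^ δ := by
    have e1 : (J : ℝ) ≤ Real.log N / Real.log 2 := by
      rw [hJ]
      exact Nat.floor_le (by positivity)
    have e2 : Real.log N ≤ N ^ δ / δ := Real.log_le_rpow_div hN0.le hδ0
    have e3 : 1 ≤ N ^ δ := Real.one_le_rpow hN hδ0.le
    have e4 : Real.log N / Real.log 2 ≤ 1 / (δ * Real.log 2) * N ^ δ := by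
      rw [div_le_iff₀ hl2]
      calc Real.log N ≤ N ^ δ / δ := e2
        _ = 1 / (δ * Real.log 2) * N ^ δ * Real.log 2 := by field_simp
    push_cast
    rw [hJ0, add_mul, one_mul]
    linarith
  have hcard : (E.card : ℝ) ≤ E1.card + ∑ j ∈ Finset.range (J + 1), ((G j).card : ℝ) := by
    have h3 := (Finset.card_le_card hcov).trans ((Finset.card_union_le _ _).trans
      (Nat.add_le_add_left Finset.card_biUnion_le _))
    exact_mod_cast h3
  have h4 := Finset.sum_le_sum d2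
  rw [Finset.sum_const, Finset.card_range, nsmul_eq_mul] at h4
  have h5 : ((J + 1 : ℕ) : ℝ) * (C2 * 8 * N ^ (1 - ε + 6 * δ)) ≤
      J0 * (C2 * 8) * N ^ (1 - ε / 2) := by
    calc ((J + 1 : ℕ) : ℝ) * (C2 * 8 * N ^ (1 - ε + 6 * δ)) ≤
          (J0 * N ^ δ) * (C2 * 8 * N ^ (1 - ε + 6 * δ)) :=
          mul_le_mul_of_nonneg_right hJ1 (by positivity)
      _ = J0 * (C2 * 8) * (N ^ δ * N ^ (1 - ε + 6 * δ)) := by ring
      _ = J0 * (C2 * 8) * N ^ (1 - ε + 7 * δ) := by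
          rw [← Real.rpow_add hN0]
          congr 2
          ring
      _ ≤ _ := by
          refine mul_le_mul_of_nonneg_left ?_ (by positivity)
          refine Real.rpow_le_rpow_of_exponent_le hN ?_
          rw [hδ]
          linarith
  calc (E.card : ℝ) ≤ C1 * N ^ (1 - ε / 2) + J0 * (C2 * 8) * N ^ (1 - ε / 2) := by
        linarith only [hcard, d1, h4, h5]
    _ = _ := by ring

end Run7.h283.MK
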