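import Pool.Agent.Y812.LowerK
import Pool.Agent.Run7.h283.MK.Upper

/-!
# Ideals dividing points of small radical: lower bounds
-/

set_option autoImplicit false

namespace Run7.h283.MK

open NumberField IsDedekindDomain Finset Pool.Agent.TH876.Loc
open Pool.Agent.H691R3 (Pl fv fv_na fv_support_finite)
open Pool.Agent.TH876.KR (log_Nv_pos' log_nn side mem_side df_eq_zero ex df_ex ex_eq_zero
  sum_side_le side_sub side_uniq side_sum mem_sp_iff fiber_small rr rr_sum' rpow_le_exp)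
open Pool.Agent.Y728 (av_inl_le_house sum_mult fv_int_le)
open Pool.Agent.Y812.LK (coe_ne sp_le quot_count D_bound box card_box mem_box elt_ne elt_house
  elt_add hs hs_nonneg)

variable {K : Type} [Field K] [NumberField K]

/-- the height of a quotient of integers -/
theorem hgt_quot {a b : 𝓞 K} (ha : a ≠ 0) (hb : b ≠ 0) (hab : a + b ≠ 0) {T : ℝ} (hT : 1 ≤ T)
    (h1 : house (a : K) ≤ T) (h2 : house (b : K) ≤ T) :
    hgt ((a : K) / b) ≤ Module.finrank ℚ K * Real.log (2 * T) := by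
  classical
  have hx := (sp_le ha hb hab hT h1 h2).1
  have hb' := coe_ne hb
  obtain ⟨x, hxe⟩ : ∃ x : K, x = (a : K) / b := ⟨_, rfl⟩
  rw [← hxe] at hx ⊢
  obtain ⟨V, hV⟩ : ∃ V : Finset (Pr K), V = sp x ∪ (fv_support_finite hb').toFinset := ⟨_, rfl⟩
  have hVx : sp x ⊆ V := by rw [hV]; exact Finset.subset_union_left
  have hVb : ∀ v, v ∉ V → fv v (b : K) = 1 := by
    intro v hv
    by_contra h
    apply hv
    rw [hV]
    refine Finset.mem_union_right _ ?_
    rw [Set.Finite.mem_toFinset]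
    exact h
  have h3 := sum_lg hb' hVb
  have h4 := hgt_eq hx hVx
  have h5 : hgt x = ∑ v ∈ Spl V, (mx v x + lg v (b : K)) := by
    rw [Finset.sum_add_distrib, h3, h4, add_zero]
  have hL : ∀ i : Fin 3, L i x * b = a ∨ L i x * b = b ∨ L i x * b = -((a : K) + b) := by
    intro i
    fin_cases i
    · left
      show x * b = a
      rw [hxe]
      field_simp
    · right; left
      show (1 : K) * b = b
      rw [one_mul]
    · right; right
      show (-x - 1) * (b : K) = _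
      rw [hxe]
      field_simp
      ring
  have e3 : ((a + b : 𝓞 K) : K) = (a : K) + b := rfl
  rw [h5, sum_Spl]
  have hfin : ∑ v ∈ V, (mx (Sum.inr v : Pl K) x + lg (Sum.inr v : Pl K) (b : K)) ≤ 0 := by
    refine Finset.sum_nonpos fun v _ => ?_
    obtain ⟨i, hi⟩ := M_attained (Sum.inr v : Pl K) x
    have hLi := L_ne hx i
    have e1 : mx (Sum.inr v : Pl K) x + lg (Sum.inr v : Pl K) (b : K) =
        Real.log (fv v (L i x * b)) := by
      unfold mx lg
      rw [hi]
      show 1 * Real.log (fv v (L i x)) + 1 * Real.log (fv v (b : K)) = _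
      rw [map_mul, Real.log_mul ((fv v).pos hLi).ne' ((fv v).pos hb').ne']
      ring
    rw [e1]
    have i1 := fv_int_le v a
    have i2 := fv_int_le v b
    have i3 := fv_int_le v (a + b)
    rw [e3] at i3
    refine Real.log_nonpos ((fv v).nonneg _) ?_
    rcases hL i with h | h | h
    · rw [h]; exact i1
    · rw [h]; exact i2
    · rw [h, (fv v).map_neg]; exact i3
  have hinf : ∑ w : InfinitePlace K, (mx (Sum.inl w : Pl K) x + lg (Sum.inl w : Pl K) (b : K)) ≤
      Module.finrank ℚ K * Real.log (2 * T) := by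
    rw [← sum_mult, Finset.sum_mul]
    refine Finset.sum_le_sum fun w _ => ?_
    obtain ⟨i, hi⟩ := M_attained (Sum.inl w : Pl K) x
    have hLi := L_ne hx i
    have hpL : 0 < av (Sum.inl w : Pl K) (L i x) := (av _).pos hLi
    have hpb : 0 < av (Sum.inl w : Pl K) (b : K) := (av _).pos hb'
    have e1 : mx (Sum.inl w : Pl K) x + lg (Sum.inl w : Pl K) (b : K) =
        (w.mult : ℝ) * Real.log (av (Sum.inl w : Pl K) (L i x * b)) := by
      unfold mx lg
      rw [hi, map_mul, Real.log_mul hpL.ne' hpb.ne']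
      show (w.mult : ℝ) * _ + (w.mult : ℝ) * _ = _
      ring
    rw [e1]
    refine mul_le_mul_of_nonneg_left ?_ (Nat.cast_nonneg _)
    refine Real.log_le_log ((av _).pos (mul_ne_zero hLi hb')) ?_
    have j1 : av (Sum.inl w : Pl K) (a : K) ≤ T := (av_inl_le_house w _).trans h1
    have j2 : av (Sum.inl w : Pl K) (b : K) ≤ T := (av_inl_le_house w _).trans h2
    have j3 : av (Sum.inl w : Pl K) ((a : K) + b) ≤ T + T :=
      ((av (Sum.inl w : Pl K)).add_le _ _).trans (add_le_add j1 j2)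
    rcases hL i with h | h | h
    · rw [h]; linarith
    · rw [h]; linarith
    · rw [h, (av (Sum.inl w : Pl K)).map_neg]; linarith
  linarith

/-- **many points of bounded height** -/
theorem points_hgt (K : Type) [Field K] [NumberField K] (δ : ℝ) (hδ : 0 < δ) :
    ∃ H0 : ℝ, 1 ≤ H0 ∧ ∀ H : ℝ, H0 ≤ H → ∃ F : Finset K, (∀ x ∈ F, Pt x ∧ hgt x ≤ Real.log H) ∧
      H ^ (2 - δ) ≤ (F.card : ℝ) := by
  classical
  have hd : 0 < Module.finrank ℚ K := Module.finrank_pos
  set d := Module.finrank ℚ K with hdd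
  have hd0 : (0 : ℝ) < d := by exact_mod_cast hd
  obtain ⟨C, hC, hD⟩ := D_bound K (d * δ / 2) (by positivity)
  obtain ⟨M, hM⟩ := exists_nat_ge (2 * (hs K + 1))
  have hs0 := hs_nonneg K
  have hM1 : (1 : ℝ) ≤ M := by linarith
  have hM0 : (0 : ℝ) < M := by linarith
  refine ⟨max (max 1 ((M : ℝ) ^ d)) (((2 * M : ℝ) ^ (2 * d) * C) ^ (2 / δ)),
    le_max_of_le_left (le_max_left _ _), fun X hX => ?_⟩
  have hX1 : 1 ≤ X := (le_max_of_le_left (le_max_left _ _)).trans hX
  have hX2 : (M : ℝ) ^ d ≤ X := (le_max_of_le_left (le_max_right _ _)).trans hX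
  have hX3 : ((2 * M : ℝ) ^ (2 * d) * C) ^ (2 / δ) ≤ X := (le_max_right _ _).trans hX
  have hX0 : 0 < X := by linarith
  set L : ℝ := X ^ ((1 : ℝ) / d) with hL
  have hL0 : 0 < L := Real.rpow_pos_of_pos hX0 _
  have hLX : L ^ d = X := by
    rw [hL, ← Real.rpow_natCast, ← Real.rpow_mul hX0.le]
    have : (1 : ℝ) / d * ((d : ℕ) : ℝ) = 1 := by field_simp
    rw [this, Real.rpow_one]
  have hML : (M : ℝ) ≤ L := by
    rw [← hLX] at hX2
    exact (pow_le_pow_iff_left₀ hM0.le hL0.le (by omega)).1 hX2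
  have hLM : 1 ≤ L / M := by rw [le_div_iff₀ hM0]; linarith
  set n : ℕ := ⌊L / M⌋₊ with hn
  have hn1 : 1 ≤ n := by
    rw [hn]
    exact (Nat.one_le_floor_iff _).2 hLM
  have hnle : (n : ℝ) ≤ L / M := Nat.floor_le (by positivity)
  have hnge : L / (2 * M) ≤ n := by
    have h1 : L / M < n + 1 := Nat.lt_floor_add_one _
    have h2 : (1 : ℝ) ≤ n := by exact_mod_cast hn1
    have h3 : L / (2 * M) = L / M / 2 := by field_simp
    rw [h3]
    linarith
  set T : ℝ := (hs K + 1) * n with hT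
  have hn1' : (1 : ℝ) ≤ n := by exact_mod_cast hn1
  have hT1 : 1 ≤ T := by
    rw [hT]
    nlinarith
  have hTL : 2 * T ≤ L := by
    have h1 : (n : ℝ) * M ≤ L := by rwa [le_div_iff₀ hM0] at hnle
    rw [hT]
    nlinarith
  set B := box K n with hB
  have hB1 : ∀ a ∈ B, a ≠ 0 ∧ house (a : K) ≤ T := by
    intro a ha
    obtain ⟨f, hf, rfl⟩ := mem_box K ha
    refine ⟨elt_ne K fun i => (hf i).1, (elt_house K hf).trans ?_⟩
    rw [hT]
    nlinarith
  have hB2 : ∀ a ∈ B, ∀ b ∈ B, a + b ≠ 0 := by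
    intro a ha b hb
    obtain ⟨f, hf, rfl⟩ := mem_box K ha
    obtain ⟨g, hg, rfl⟩ := mem_box K hb
    rw [elt_add]
    refine elt_ne K fun i => ?_
    have := (hf i).1
    have := (hg i).1
    rw [Pi.add_apply]
    omega
  set Dn : ℕ := ⌊C * T ^ (d * δ / 2)⌋₊ with hDn
  have hDn' : (Dn : ℝ) ≤ C * L ^ (d * δ / 2) := by
    refine (Nat.floor_le (by positivity)).trans ?_
    refine mul_le_mul_of_nonneg_left ?_ hC.le
    exact Real.rpow_le_rpow (by linarith) (by linarith) (by positivity)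
  have hq := quot_count B (fun a ha => (hB1 a ha).1) Dn (fun a ha b hb => by
    rw [hDn]
    exact Nat.le_floor (hD T hT1 B hB1 a ha b hb))
  refine ⟨(B ×ˢ B).image fun p => (p.1 : K) / (p.2 : K), ?_, ?_⟩
  · intro x hx
    obtain ⟨p, hp, rfl⟩ := Finset.mem_image.1 hx
    obtain ⟨ha, hb⟩ := Finset.mem_product.1 hp
    obtain ⟨h1, -⟩ := sp_le (hB1 _ ha).1 (hB1 _ hb).1 (hB2 _ ha _ hb) hT1 (hB1 _ ha).2 (hB1 _ hb).2
    refine ⟨h1, (hgt_quot (hB1 _ ha).1 (hB1 _ hb).1 (hB2 _ ha _ hb) hT1 (hB1 _ ha).2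
      (hB1 _ hb).2).trans ?_⟩
    rw [← hLX, Real.log_pow, ← hdd]
    refine mul_le_mul_of_nonneg_left ?_ hd0.le
    exact Real.log_le_log (by positivity) hTL
  · set N := ((B ×ˢ B).image fun p => (p.1 : K) / (p.2 : K)).card with hN
    rw [hB, card_box, ← hdd] at hq
    have h1 : (((n ^ d) ^ 2 : ℕ) : ℝ) ≤ ((N * Dn : ℕ) : ℝ) := by exact_mod_cast hq
    push_cast at h1
    have h2 : (L / (2 * M)) ^ (2 * d) ≤ (((n : ℝ) ^ d) ^ 2) := by
      rw [← pow_mul, mul_comm d 2]
      exact pow_le_pow_left₀ (by positivity) hnge _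
    have h3 : (L / (2 * M)) ^ (2 * d) ≤ N * (C * L ^ (d * δ / 2)) :=
      h2.trans (h1.trans (mul_le_mul_of_nonneg_left hDn' (Nat.cast_nonneg _)))
    rw [div_pow, div_le_iff₀ (by positivity)] at h3
    have h4 : (2 * M : ℝ) ^ (2 * d) * C ≤ X ^ (δ / 2) := by
      have h5 : 0 < (2 * M : ℝ) ^ (2 * d) * C := by positivity
      have h6 := Real.rpow_le_rpow (by positivity) hX3 (by positivity : (0 : ℝ) ≤ δ / 2)
      rw [← Real.rpow_mul h5.le] at h6
      have h7 : 2 / δ * (δ / 2) = 1 := by field_simp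
      rw [h7, Real.rpow_one] at h6
      exact h6
    have e1 : L ^ (2 * d) = X ^ (2 : ℝ) := by
      rw [hL, ← Real.rpow_natCast, ← Real.rpow_mul hX0.le]
      congr 1
      push_cast
      field_simp
    have e2 : L ^ (d * δ / 2) = X ^ (δ / 2) := by
      rw [hL, ← Real.rpow_mul hX0.le]
      congr 1
      field_simp
    rw [e1, e2] at h3
    have hXd : 0 < X ^ (δ / 2) := Real.rpow_pos_of_pos hX0 _
    have h8 : X ^ (2 : ℝ) ≤ N * X ^ δ := by
      calc X ^ (2 : ℝ) ≤ N * (C * X ^ (δ / 2)) * (2 * M) ^ (2 * d) := h3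
        _ = N * (((2 * M : ℝ) ^ (2 * d) * C) * X ^ (δ / 2)) := by ring
        _ ≤ N * (X ^ (δ / 2) * X ^ (δ / 2)) :=
            mul_le_mul_of_nonneg_left (mul_le_mul_of_nonneg_right h4 hXd.le) (Nat.cast_nonneg _)
        _ = N * X ^ δ := by rw [← Real.rpow_add hX0]; congr 2; ring
    rw [Real.rpow_sub hX0, div_le_iff₀ (Real.rpow_pos_of_pos hX0 _)]
    exact h8

end Run7.h283.MK
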