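import Pool.Agent.TH876.Sums

/-!
# Ideals of bounded norm composed of given primes of a number field
-/

set_option autoImplicit false

namespace Run7.h283.MK

open NumberField IsDedekindDomain Finset Pool.Agent.H691R3 Pool.Agent.TH876.Loc

variable {K : Type} [Field K] [NumberField K]

/-- the exponent of a prime in an ideal -/
noncomputable def ev (I : Ideal (𝓞 K)) (v : Pr K) : ℕ :=
  (Associates.mk v.asIdeal).count (Associates.mk I).factors

theorem ev_ne_zero_iff {I : Ideal (𝓞 K)} (hI : I ≠ ⊥) (v : Pr K) : ev I v ≠ 0 ↔ v.asIdeal ∣ I :=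
  Associates.count_ne_zero_iff_dvd hI v.irreducible

theorem eq_prod {I : Ideal (𝓞 K)} (hI : I ≠ ⊥) {S : Finset (Pr K)}
    (hS : ∀ v : Pr K, v.asIdeal ∣ I → v ∈ S) : I = ∏ v ∈ S, v.asIdeal ^ ev I v := by
  have h1 := Ideal.finprod_heightOneSpectrum_factorization (I := I) hI
  rw [finprod_eq_prod_of_mulSupport_subset (s := S)] at h1
  · exact h1.symm
  · intro v hv
    rw [Function.mem_mulSupport] at hv
    rw [Finset.mem_coe]
    refine hS v ((ev_ne_zero_iff hI v).1 fun h0 => hv ?_)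
    unfold IsDedekindDomain.HeightOneSpectrum.maxPowDividing
    unfold ev at h0
    rw [h0, pow_zero]

theorem absNorm_prod (S : Finset (Pr K)) (e : Pr K → ℕ) :
    (Ideal.absNorm (∏ v ∈ S, v.asIdeal ^ e v) : ℝ) = ∏ v ∈ S, Nv v ^ e v := by
  rw [map_prod, Nat.cast_prod]
  refine Finset.prod_congr rfl fun v _ => ?_
  rw [map_pow, Nat.cast_pow]
  rfl

theorem dvd_prime {v w : Pr K} (h : v.asIdeal ∣ w.asIdeal) : v = w := by
  have h1 := (Prime.dvd_prime_iff_associated v.prime w.prime).1 h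
  rw [associated_iff_eq] at h1
  exact HeightOneSpectrum.ext h1

theorem not_dvd_prod {S : Finset (Pr K)} (e : Pr K → ℕ) {v : Pr K} (hv : v ∉ S) :
    ¬ v.asIdeal ∣ ∏ w ∈ S, w.asIdeal ^ e w := by
  intro h
  obtain ⟨w, hw, h1⟩ := (Prime.dvd_finsetProd_iff v.prime _).1 h
  have h2 := dvd_prime (v.prime.dvd_of_dvd_pow h1)
  rw [h2] at hv
  exact hv hw

open Classical in
theorem pow_dvd_prod {S : Finset (Pr K)} (e : Pr K → ℕ) {v : Pr K} (hv : v ∈ S) (k : ℕ) :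
    v.asIdeal ^ k ∣ ∏ w ∈ S, w.asIdeal ^ e w ↔ k ≤ e v := by
  rw [← Finset.mul_prod_erase S _ hv]
  constructor
  · intro h
    by_contra hk
    push Not at hk
    have h1 : v.asIdeal ^ (e v + 1) ∣ v.asIdeal ^ e v * ∏ w ∈ S.erase v, w.asIdeal ^ e w :=
      (pow_dvd_pow _ hk).trans h
    rw [pow_succ, mul_dvd_mul_iff_left (pow_ne_zero _ v.ne_bot)] at h1
    exact not_dvd_prod e (Finset.notMem_erase v S) h1
  · intro h
    exact (pow_dvd_pow _ h).trans (Dvd.intro _ rfl)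

theorem absNorm_pos {I : Ideal (𝓞 K)} (hI : I ≠ ⊥) : 0 < (Ideal.absNorm I : ℝ) := by
  have : Ideal.absNorm I ≠ 0 := by
    rw [Ne, Ideal.absNorm_eq_zero_iff]
    exact hI
  exact_mod_cast Nat.pos_of_ne_zero this

theorem one_le_absNorm {I : Ideal (𝓞 K)} (hI : I ≠ ⊥) : 1 ≤ (Ideal.absNorm I : ℝ) := by
  have : Ideal.absNorm I ≠ 0 := by
    rw [Ne, Ideal.absNorm_eq_zero_iff]
    exact hI
  exact_mod_cast Nat.one_le_iff_ne_zero.2 this

theorem y_lt {σ : ℝ} (hσ : 0 < σ) (v : Pr K) : Nv v ^ (-σ) < 1 :=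
  Real.rpow_lt_one_of_one_lt_of_neg (by linarith [two_le_Nv v]) (by linarith)

open Classical in
/-- Rankin's sum over the ideals composed of given primes -/
theorem supp_sum {δ : ℝ} (hδ : 0 < δ) (S : Finset (Pr K)) (E : Finset (Ideal (𝓞 K)))
    (hE : ∀ I ∈ E, I ≠ ⊥ ∧ ∀ v : Pr K, v.asIdeal ∣ I → v ∈ S) :
    ∑ I ∈ E, (Ideal.absNorm I : ℝ) ^ (-δ) ≤ ∏ v ∈ S, (1 - Nv v ^ (-δ))⁻¹ := by
  obtain ⟨B, hB⟩ : ∃ B : ℕ, ∀ I ∈ E, ∀ v ∈ S, ev I v ≤ B := by
    refine ⟨∑ I ∈ E, ∑ v ∈ S, ev I v, fun I hI v hv => ?_⟩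
    exact (Finset.single_le_sum (f := fun v => ev I v) (fun _ _ => Nat.zero_le _) hv).trans
      (Finset.single_le_sum (f := fun I => ∑ v ∈ S, ev I v) (fun _ _ => Nat.zero_le _) hI)
  obtain ⟨φ, hφ⟩ : ∃ φ : Ideal (𝓞 K) → S → ℕ, φ = fun I v => ev I v.1 := ⟨_, rfl⟩
  obtain ⟨g, hg⟩ : ∃ g : (S → ℕ) → ℝ, g = fun f => ∏ v : S, (Nv v.1 ^ (-δ)) ^ f v := ⟨_, rfl⟩
  have hg0 : ∀ f, 0 ≤ g f := fun f => by
    rw [hg]
    refine Finset.prod_nonneg fun v _ => ?_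
    have := Nv_pos v.1
    positivity
  have hval : ∀ I ∈ E, (Ideal.absNorm I : ℝ) ^ (-δ) = g (φ I) := by
    intro I hI
    obtain ⟨h0, h1⟩ := hE I hI
    rw [hg, hφ]
    simp only
    rw [Finset.prod_coe_sort S (fun v => (Nv v ^ (-δ)) ^ ev I v)]
    conv_lhs => rw [eq_prod h0 h1, absNorm_prod]
    rw [← Real.finsetProd_rpow _ _ (fun v _ => by have := Nv_pos v; positivity)]
    refine Finset.prod_congr rfl fun v _ => ?_
    have hv := Nv_pos v
    rw [← Real.rpow_natCast, ← Real.rpow_natCast, ← Real.rpow_mul hv.le, ← Real.rpow_mul hv.le,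
      mul_comm]
  have hinj : Set.InjOn φ E := by
    intro I hI J hJ hIJ
    obtain ⟨h0, h1⟩ := hE I hI
    obtain ⟨k0, k1⟩ := hE J hJ
    rw [eq_prod h0 h1, eq_prod k0 k1]
    refine Finset.prod_congr rfl fun v hv => ?_
    have h2 := congrFun hIJ ⟨v, hv⟩
    rw [hφ] at h2
    simp only at h2
    rw [h2]
  rw [Finset.sum_congr rfl hval, ← Finset.sum_image (f := g) hinj]
  have hsub : E.image φ ⊆ Fintype.piFinset fun _ : S => Finset.range (B + 1) := by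
    intro f hf
    obtain ⟨I, hI, rfl⟩ := Finset.mem_image.1 hf
    rw [Fintype.mem_piFinset]
    intro v
    rw [Finset.mem_range, hφ]
    exact Nat.lt_succ_of_le (hB I hI v.1 v.2)
  refine (Finset.sum_le_sum_of_subset_of_nonneg hsub fun f _ _ => hg0 f).trans ?_
  rw [hg, ← Finset.prod_univ_sum (fun _ : S => Finset.range (B + 1))
    (fun v m => (Nv v.1 ^ (-δ)) ^ m), ← Finset.prod_coe_sort S (fun v => (1 - Nv v ^ (-δ))⁻¹)]
  refine Finset.prod_le_prod (fun v _ => ?_) fun v _ => ?_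
  · refine Finset.sum_nonneg fun m _ => ?_
    have := Nv_pos v.1
    positivity
  · have hy := y_lt hδ v.1
    have hy0 : 0 ≤ Nv v.1 ^ (-δ) := (Real.rpow_pos_of_pos (Nv_pos _) _).le
    rw [← tsum_geometric_of_lt_one hy0 hy]
    exact (summable_geometric_of_lt_one hy0 hy).sum_le_tsum _ fun m _ => by positivity

variable (K) in
theorem finite_Nv (Y : ℝ) : {v : Pr K | Nv v ≤ Y}.Finite := by
  have h1 := Ideal.finite_setOfPred_absNorm_le (S := 𝓞 K) ⌈Y⌉₊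
  refine Set.Finite.of_finite_image (f := fun v : Pr K => v.asIdeal) (h1.subset ?_) ?_
  · rintro I ⟨v, hv, rfl⟩
    have h2 : Nv v ≤ ⌈Y⌉₊ := le_trans hv (Nat.le_ceil Y)
    have h3 : (Ideal.absNorm v.asIdeal : ℝ) ≤ ⌈Y⌉₊ := h2
    exact_mod_cast h3
  · intro v _ w _ h
    exact HeightOneSpectrum.ext h

open Classical in
variable (K) in
/-- **ideals of norm at most `N` composed of given primes** -/
theorem supp_count {δ : ℝ} (hδ : 0 < δ) : ∃ C : ℝ, 1 ≤ C ∧ ∀ N : ℝ, 0 ≤ N → ∀ S : Finset (Pr K),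
    ∀ E : Finset (Ideal (𝓞 K)), (∀ I ∈ E, I ≠ ⊥ ∧ (Ideal.absNorm I : ℝ) ≤ N ∧
      ∀ v : Pr K, v.asIdeal ∣ I → v ∈ S) → (E.card : ℝ) ≤ C * (N ^ δ * nn S ^ δ) := by
  obtain ⟨T, hT⟩ : ∃ T : Finset (Pr K), T = (finite_Nv K (2 ^ (1 / δ))).toFinset := ⟨_, rfl⟩
  have hmT : ∀ v, v ∉ T → 2 ≤ Nv v ^ δ := by
    intro v hv
    rw [hT, Set.Finite.mem_toFinset] at hv
    have h1 : (2 : ℝ) ^ (1 / δ) ≤ Nv v := by
      by_contra hcon
      push Not at hcon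
      exact hv hcon.le
    have h2 := Real.rpow_le_rpow (by positivity) h1 hδ.le
    rw [← Real.rpow_mul (by norm_num), one_div_mul_cancel hδ.ne', Real.rpow_one] at h2
    exact h2
  have hpos : ∀ v : Pr K, 0 < 1 - Nv v ^ (-δ) := fun v => by linarith [y_lt hδ v]
  have hone : ∀ v : Pr K, 1 ≤ (1 - Nv v ^ (-δ))⁻¹ := fun v => by
    rw [one_le_inv₀ (hpos v)]
    have : 0 < Nv v ^ (-δ) := Real.rpow_pos_of_pos (Nv_pos _) _
    linarith
  obtain ⟨C, hC⟩ : ∃ C : ℝ, C = ∏ v ∈ T, (1 - Nv v ^ (-δ))⁻¹ := ⟨_, rfl⟩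
  have hC1 : 1 ≤ C := by
    rw [hC]
    calc (1 : ℝ) = ∏ _v ∈ T, (1 : ℝ) := by simp
      _ ≤ _ := Finset.prod_le_prod (fun _ _ => zero_le_one) fun v _ => hone v
  refine ⟨C, hC1, fun N hN S E hE => ?_⟩
  have h1 := supp_sum hδ S E (fun I hI => ⟨(hE I hI).1, (hE I hI).2.2⟩)
  have h2 : ∏ v ∈ S, (1 - Nv v ^ (-δ))⁻¹ ≤ C * nn S ^ δ := by
    have h3 : ∏ v ∈ S, (1 - Nv v ^ (-δ))⁻¹ ≤
        ∏ v ∈ S, ((if v ∈ T then (1 - Nv v ^ (-δ))⁻¹ else 1) * Nv v ^ δ) := by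
      refine Finset.prod_le_prod (fun v _ => (inv_pos.2 (hpos v)).le) fun v _ => ?_
      have hv1 : 1 ≤ Nv v ^ δ := Real.one_le_rpow (one_le_Nv v) hδ.le
      split_ifs with hvT
      · exact le_mul_of_one_le_right (inv_pos.2 (hpos v)).le hv1
      · have h4 := hmT v hvT
        have h5 : Nv v ^ (-δ) = (Nv v ^ δ)⁻¹ := Real.rpow_neg (Nv_pos v).le _
        rw [one_mul, inv_le_comm₀ (hpos v) (by linarith), h5]
        have h6 : (Nv v ^ δ)⁻¹ ≤ 2⁻¹ := inv_anti₀ (by norm_num) h4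
        linarith
    refine h3.trans ?_
    rw [Finset.prod_mul_distrib]
    have h4 : ∏ v ∈ S, Nv v ^ δ = nn S ^ δ := by
      unfold nn
      rw [← Real.finsetProd_rpow _ _ (fun v _ => (Nv_pos v).le)]
    rw [h4]
    refine mul_le_mul_of_nonneg_right ?_ (Real.rpow_nonneg (nn_pos S).le _)
    rw [← Finset.prod_filter, hC]
    refine Finset.prod_le_prod_of_subset_of_one_le ?_ (fun v _ => (inv_pos.2 (hpos v)).le)
      fun v _ _ => hone v
    intro v hv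
    exact (Finset.mem_filter.1 hv).2
  have h3 : (E.card : ℝ) ≤ N ^ δ * ∑ I ∈ E, (Ideal.absNorm I : ℝ) ^ (-δ) := by
    rw [Finset.card_eq_sum_ones, Nat.cast_sum, Finset.mul_sum]
    refine Finset.sum_le_sum fun I hI => ?_
    obtain ⟨a1, a2, -⟩ := hE I hI
    have hp := absNorm_pos a1
    rw [Nat.cast_one, Real.rpow_neg hp.le, ← div_eq_mul_inv, one_le_div (by positivity)]
    exact Real.rpow_le_rpow hp.le a2 hδ.le
  calc (E.card : ℝ) ≤ N ^ δ * ∑ I ∈ E, (Ideal.absNorm I : ℝ) ^ (-δ) := h3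
    _ ≤ N ^ δ * (C * nn S ^ δ) := mul_le_mul_of_nonneg_left (h1.trans h2) (by positivity)
    _ = _ := by ring

end Run7.h283.MK
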