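import Pool.Agent.Y728.Cheap2
import Pool.Agent.Run7.h283.MK.Supp

/-!
# Points of small radical with a large prime, over a number field

The number of points with radical of norm at most `X` which have a prime of norm at least `Y` is at
most `D X ^ ε (X / Y)`. Over `ℚ` this is in the starting library (`TH194/MR/Prime`).
-/

set_option autoImplicit false

namespace Run7.h283.MK

open NumberField IsDedekindDomain Finset Pool.Agent.H691R3 Pool.Agent.TH876.Loc
open Pool.Agent.TH876.KR (InP aw log_Nv_pos' log_nn side mem_side df_eq_zero Light rr rr_nonneg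
  rr_sum' side_sub side_uniq side_sum mem_sp_iff fiber_small pair_count wt pi_sum_le rpow_le_exp)

variable {K : Type} [Field K] [NumberField K]

variable (K) in
/-- points of small height two sides of which have a small radical -/
theorem small_pairK (ε : ℝ) (hε : 0 < ε) :
    ∃ η : ℝ, 0 < η ∧ ∃ L1 : ℝ, 1 ≤ L1 ∧ ∃ C : ℝ, 0 < C ∧
    ∀ X : ℝ, 1 ≤ X → L1 ≤ Real.log X → ∀ M : ℝ, 1 ≤ M → M ≤ X → ∀ F : Finset K,
      (∀ x ∈ F, Pt x ∧ hgt x ≤ Real.log X ^ (2 + η) ∧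
        ∃ i j : Fin 3, i ≠ j ∧ rr i x + rr j x ≤ Real.log M) →
      (F.card : ℝ) ≤ C * (M * X ^ ε) := by
  classical
  obtain ⟨C0, hC0, hfib⟩ := fiber_small K
  obtain ⟨θ, hθ⟩ : ∃ θ : ℝ, θ = ε / 2 := ⟨_, rfl⟩
  have hθ0 : 0 < θ := by rw [hθ]; positivity
  obtain ⟨β, hβ⟩ : ∃ β : ℝ, β = 1 / (1 + θ / 2) := ⟨_, rfl⟩
  have hβ0 : 0 < β := by rw [hβ]; positivity
  have hβ1 : β ≤ 1 := by
    rw [hβ, div_le_one (by positivity)]; linarith
  have haβ : 1 < (1 + θ) * β := by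
    rw [hβ, mul_one_div, lt_div_iff₀ (by positivity)]; linarith
  obtain ⟨η, hη⟩ : ∃ η : ℝ, η = θ / 4 := ⟨_, rfl⟩
  have hη0 : 0 < η := by rw [hη]; positivity
  have hγ : (1 + η) * β < 1 := by
    rw [hβ, mul_one_div, div_lt_one (by positivity), hη]; linarith
  obtain ⟨Z, hZ⟩ : ∃ Z : ℝ, Z = (Module.finrank ℚ K : ℝ) *
    ∑' n : ℕ, ((n : ℝ) ^ ((1 + θ) * β))⁻¹ := ⟨_, rfl⟩
  have hZ0 : 0 ≤ Z := by
    rw [hZ]; exact mul_nonneg (Nat.cast_nonneg _) (tsum_nonneg fun n => by positivity)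
  -- the threshold for `L`
  obtain ⟨W, hW⟩ : ∃ W : ℝ, W = (32 / ε) ^ β * Z / β * (16 / ε) := ⟨_, rfl⟩
  have hW0 : 0 ≤ W := by rw [hW]; positivity
  obtain ⟨γ, hγd⟩ : ∃ γ : ℝ, γ = 1 - (1 + η) * β := ⟨_, rfl⟩
  have hγ0 : 0 < γ := by rw [hγd]; linarith
  obtain ⟨D, hD0, hD⟩ := rpow_le_exp (c := (2 + η) * C0) (δ := ε / 4) (by positivity)
    (by positivity)
  refine ⟨η, hη0, max 1 (W ^ (1 / γ)), le_max_left _ _, 6 * (C0 * D), by positivity,
    fun X hX hL M hM1 hMX F hF => ?_⟩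
  obtain ⟨L, hLd⟩ : ∃ L, L = Real.log X := ⟨_, rfl⟩
  rw [← hLd] at hL hF
  have hL1 : 1 ≤ L := (le_max_left _ _).trans hL
  have hL0 : 0 < L := by linarith
  have hX0 : 0 < X := by linarith
  have hM0 : 0 < M := by linarith
  have hlM : 0 ≤ Real.log M := Real.log_nonneg hM1
  have hlML : Real.log M ≤ L := by rw [hLd]; exact Real.log_le_log hM0 hMX
  have hWL : W ≤ L ^ γ := by
    have h1 : (W ^ (1 / γ)) ^ γ ≤ L ^ γ :=
      Real.rpow_le_rpow (by positivity) ((le_max_right _ _).trans hL) hγ0.le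
    rwa [← Real.rpow_mul hW0, one_div_mul_cancel hγ0.ne', Real.rpow_one] at h1
  obtain ⟨σ, hσ⟩ : ∃ σ : ℝ, σ = ε / 16 * L ^ (-(1 + η)) := ⟨_, rfl⟩
  have hσ0 : 0 < σ := by rw [hσ]; positivity
  obtain ⟨B, hB⟩ : ∃ B : ℝ, B = L ^ (2 + η) := ⟨_, rfl⟩
  have hB1 : 1 ≤ B := by
    rw [hB]; exact Real.one_le_rpow hL1 (by linarith)
  have hσB : σ * B = ε / 16 * L := by
    rw [hσ, hB, mul_assoc, ← Real.rpow_add hL0]
    have : -(1 + η) + (2 + η) = 1 := by ring
    rw [this, Real.rpow_one]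
  have h4 : (2 / σ) ^ β * Z / β ≤ ε / 16 * L := by
    have e1 : 2 / σ = 32 / ε * L ^ (1 + η) := by
      rw [hσ, Real.rpow_neg hL0.le]
      field_simp
      norm_num
    rw [e1, Real.mul_rpow (by positivity) (by positivity), ← Real.rpow_mul hL0.le]
    have e2 : L = L ^ ((1 + η) * β) * L ^ γ := by
      rw [← Real.rpow_add hL0, hγd]
      have : (1 + η) * β + (1 - (1 + η) * β) = 1 := by ring
      rw [this, Real.rpow_one]
    have e3 : (32 / ε) ^ β * L ^ ((1 + η) * β) * Z / β =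
        ε / 16 * (L ^ ((1 + η) * β) * W) := by
      rw [hW]
      field_simp
    rw [e3]
    conv_rhs => rw [e2]
    refine mul_le_mul_of_nonneg_left ?_ (by positivity)
    exact mul_le_mul_of_nonneg_left hWL (by positivity)
  have hV : ∀ P : Finset (Pr K), ∑ f ∈ Fintype.piFinset (fun _ : P => range (⌊2 * B⌋₊ + 1)),
      ∏ v : P, wt σ (1 + θ) v.1 (f v) ≤ Real.exp (ε / 16 * L) := by
    intro P
    refine (pi_sum_le hσ0 hβ0 hβ1 haβ P _).trans (Real.exp_le_exp.2 ?_)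
    rw [← hZ]
    exact h4
  have hBC : B ^ C0 ≤ D * Real.exp (ε / 4 * L) := by
    rw [hB, ← Real.rpow_mul hL0.le]
    exact hD L hL1
  have hpair : ∀ i j : Fin 3, i ≠ j →
      ((F.filter fun x => rr i x + rr j x ≤ Real.log M).card : ℝ) ≤ C0 * D * (M * X ^ ε) := by
    intro i j hij
    have h1 := pair_count (a := 1 + θ) (L := 3 / 2 * Real.log M) (by positivity) hσ0.le hC0 hB1
      (fun F h1 h2 => hfib B hB1 i j hij F h1 h2) hV
      (F.filter fun x => rr i x + rr j x ≤ Real.log M) (fun x hx => by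
        obtain ⟨b1, b2⟩ := Finset.mem_filter.1 hx
        obtain ⟨c1, c3, _⟩ := hF x b1
        refine ⟨c1, ?_, by linarith⟩
        rw [hB]
        exact c3)
    refine h1.trans ?_
    have h5 : Real.exp (2 / 3 * (1 + θ) * (3 / 2 * Real.log M) + 2 * σ * B) *
        Real.exp (ε / 16 * L) ^ 2 = Real.exp ((1 + θ) * Real.log M + ε / 4 * L) := by
      rw [← Real.exp_nat_mul, ← Real.exp_add]
      congr 1
      push_cast
      linear_combination 2 * hσB
    rw [h5]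
    calc C0 * B ^ C0 * Real.exp ((1 + θ) * Real.log M + ε / 4 * L) ≤
        C0 * (D * Real.exp (ε / 4 * L)) * Real.exp ((1 + θ) * Real.log M + ε / 4 * L) := by
          refine mul_le_mul_of_nonneg_right ?_ (Real.exp_pos _).le
          exact mul_le_mul_of_nonneg_left hBC (by linarith)
      _ = C0 * D * Real.exp (ε / 4 * L + ((1 + θ) * Real.log M + ε / 4 * L)) := by
          rw [Real.exp_add (ε / 4 * L)]; ring
      _ ≤ C0 * D * Real.exp (Real.log M + L * ε) := by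
          refine mul_le_mul_of_nonneg_left (Real.exp_le_exp.2 ?_) (by positivity)
          rw [hθ]
          nlinarith
      _ = C0 * D * (M * X ^ ε) := by
          rw [Real.exp_add, Real.exp_log hM0, Real.rpow_def_of_pos hX0, hLd]
  have hcover : F ⊆ (Finset.univ.filter fun q : Fin 3 × Fin 3 => q.1 ≠ q.2).biUnion fun q =>
      F.filter fun x => rr q.1 x + rr q.2 x ≤ Real.log M := by
    intro x hx
    obtain ⟨_, _, i, j, hij, h⟩ := hF x hx
    rw [Finset.mem_biUnion]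
    exact ⟨(i, j), Finset.mem_filter.2 ⟨Finset.mem_univ _, hij⟩, Finset.mem_filter.2 ⟨hx, h⟩⟩
  have h1 := (Finset.card_le_card hcover).trans Finset.card_biUnion_le
  have h2 : (F.card : ℝ) ≤ ∑ q ∈ Finset.univ.filter fun q : Fin 3 × Fin 3 => q.1 ≠ q.2,
      ((F.filter fun x => rr q.1 x + rr q.2 x ≤ Real.log M).card : ℝ) := by exact_mod_cast h1
  refine h2.trans ((Finset.sum_le_sum fun q hq =>
    hpair q.1 q.2 (Finset.mem_filter.1 hq).2).trans (le_of_eq ?_))
  rw [Finset.sum_const, nsmul_eq_mul]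
  have h3 : (Finset.univ.filter fun q : Fin 3 × Fin 3 => q.1 ≠ q.2).card = 6 := by decide
  rw [h3]
  push_cast
  ring

/-- the two sides which do not contain a given prime -/
theorem pair_primeK {x : K} (hx : Pt x) {p : Pr K} (hp : p ∈ sp x) :
    ∃ i j : Fin 3, i ≠ j ∧ rr i x + rr j x ≤ Real.log (nn (sp x)) - Real.log (Nv p) := by
  have hs := rr_sum' hx
  obtain ⟨B, hB⟩ := (mem_sp_iff hx p).1 hp
  have h1 : Real.log (Nv p) ≤ rr B x :=
    Finset.single_le_sum (f := fun v : Pr K => Real.log (Nv v))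
      (fun v _ => (log_Nv_pos' v).le) hB
  fin_cases B
  · exact ⟨1, 2, by decide, by simp only [Fin.zero_eta] at h1; linarith⟩
  · exact ⟨0, 2, by decide, by simp only [Fin.mk_one] at h1; linarith⟩
  · exact ⟨0, 1, by decide, by simp only [Fin.reduceFinMk] at h1; linarith⟩

open Classical in
/-- all primes but one are prescribed -/
theorem inP_erase {k : ℕ} (hk : 1 ≤ k) {x : K} (hx : Pt x) {p : Pr K} (hp : p ∈ sp x) :
    ∃ A B E : Fin 3, A ≠ B ∧ B ≠ E ∧ A ≠ E ∧ InP k ((sp x).erase p) A B E x p := by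
  obtain ⟨B, hB⟩ := (mem_sp_iff hx p).1 hp
  have key : ∀ A E : Fin 3, A ≠ B → B ≠ E → A ≠ E → InP k ((sp x).erase p) A B E x p := by
    intro A E hAB hBE hAE
    have hsub : ∀ j : Fin 3, j ≠ B → side j x ⊆ (sp x).erase p := by
      intro j hj v hv
      rw [Finset.mem_erase]
      refine ⟨?_, side_sub j x hv⟩
      rintro rfl
      exact hj (side_uniq hv hB)
    refine
      { pS := Finset.notMem_erase _ _
        pB := hB
        fB := ?_
        fC := hsub E hBE.symm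
        wt := ?_ }
    · intro v hv
      rw [Finset.insert_erase hp]
      exact side_sub B x hv
    · have h1 := side_sum hx A
      have h2 : ∑ v ∈ side A x, df (Sum.inr v : Pl K) A x =
          ∑ v ∈ (sp x).erase p, df (Sum.inr v : Pl K) A x :=
        Finset.sum_subset (hsub A hAB) fun v _ hv => df_eq_zero hx hv
      rw [← h2, add_comm, h1]
      refine div_le_self (hgt_nonneg x) ?_
      exact_mod_cast hk
  fin_cases B
  · exact ⟨2, 0, 1, by decide, by decide, by decide, key 2 1 (by decide) (by decide) (by decide)⟩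
  · exact ⟨2, 1, 0, by decide, by decide, by decide, key 2 0 (by decide) (by decide) (by decide)⟩
  · exact ⟨1, 2, 0, by decide, by decide, by decide, key 1 0 (by decide) (by decide) (by decide)⟩

variable (K) in
/-- **points of all heights with radical at most `X` and a prime of norm at least `Y`** -/
theorem prime_allK (ε : ℝ) (hε : 0 < ε) : ∃ D : ℝ, 0 < D ∧ ∀ X Y : ℝ, 1 ≤ X → 1 ≤ Y →
    ∀ F : Finset K, (∀ x ∈ F, Pt x ∧ nn (sp x) ≤ X ∧ ∃ p ∈ sp x, Y ≤ Nv p) →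
    (F.card : ℝ) ≤ D * (X ^ ε * (X / Y)) := by
  classical
  obtain ⟨k0, hk0⟩ : ∃ k0 : ℕ, 5 / ε ≤ k0 := exists_nat_ge _
  obtain ⟨k, hk⟩ : ∃ k, k = k0 + 9 := ⟨_, rfl⟩
  have hk9 : 9 ≤ k := by omega
  have hk9' : (9 : ℝ) ≤ k := by exact_mod_cast hk9
  have hkp : (0 : ℝ) < k := by linarith
  have hkε : 5 / (k : ℝ) ≤ ε := by
    have h1 : 5 / ε ≤ (k : ℝ) := hk0.trans (by rw [hk]; push_cast; linarith)
    rw [div_le_iff₀ hε] at h1
    rw [div_le_iff₀ hkp]
    linarith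
  obtain ⟨D0, hD0, hall⟩ := Pool.Agent.Y728.mainK K ε hε
  obtain ⟨η, hη, L1, hL1, C1, hC1, hsmall⟩ := small_pairK K ε hε
  obtain ⟨D1, hD1, X1, hX11, hcnt⟩ := Pool.Agent.Y728.cheapK K hk9 hη
  obtain ⟨X0, hX0e⟩ : ∃ X0, X0 = max X1 (Real.exp L1) := ⟨_, rfl⟩
  have hX01 : 1 ≤ X0 := by
    rw [hX0e]
    exact (by linarith : (1 : ℝ) ≤ X1).trans (le_max_left _ _)
  have hX0p : 0 < X0 := by linarith
  refine ⟨D0 + D0 * X0 ^ (2 / 3 + ε) + (C1 + D1), by positivity,
    fun X Y hX hY F hF => ?_⟩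
  have hXp : 0 < X := by linarith
  have hYp : 0 < Y := by linarith
  have hXe1 : 1 ≤ X ^ ε := Real.one_le_rpow hX (by positivity)
  rcases F.eq_empty_or_nonempty with he | ⟨x0, hx0⟩
  · rw [he, Finset.card_empty, Nat.cast_zero]
    positivity
  have hXYp : 0 < X / Y := by positivity
  have hXY1 : 1 ≤ X / Y := by
    obtain ⟨a1, a2, p, a3, a4⟩ := hF x0 hx0
    rw [one_le_div hYp]
    exact a4.trans ((Nv_le_nn a3).trans a2)
  have hY0 : 1 ≤ X ^ ε * (X / Y) := one_le_mul_of_one_le_of_one_le hXe1 hXY1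
  rcases le_or_gt Y (X ^ (1 / 3 : ℝ)) with hc | hc
  · -- `Y` small
    have h1 := hall X hX F fun t ht => ⟨(hF t ht).1, (hF t ht).2.1⟩
    have h2 : X ^ (2 / 3 : ℝ) ≤ X / Y := by
      rw [le_div_iff₀ hYp]
      calc X ^ (2 / 3 : ℝ) * Y ≤ X ^ (2 / 3 : ℝ) * X ^ (1 / 3 : ℝ) :=
            mul_le_mul_of_nonneg_left hc (by positivity)
        _ = X := by
            rw [← Real.rpow_add hXp]
            norm_num
    have h3 : D0 * X ^ (2 / 3 + ε) ≤ D0 * (X ^ ε * (X / Y)) := by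
      rw [Real.rpow_add hXp, mul_comm (X ^ (2 / 3 : ℝ))]
      exact mul_le_mul_of_nonneg_left (mul_le_mul_of_nonneg_left h2 (by positivity)) hD0.le
    have h4 : 0 ≤ (D0 * X0 ^ (2 / 3 + ε) + (C1 + D1)) * (X ^ ε * (X / Y)) := by positivity
    calc (F.card : ℝ) ≤ D0 * (X ^ ε * (X / Y)) := h1.trans h3
      _ ≤ D0 * (X ^ ε * (X / Y)) +
          (D0 * X0 ^ (2 / 3 + ε) + (C1 + D1)) * (X ^ ε * (X / Y)) := by linarith
      _ = _ := by ring
  rcases lt_or_ge X X0 with hsm | hlarge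
  · -- small `X`
    have h1 := hall X hX F fun t ht => ⟨(hF t ht).1, (hF t ht).2.1⟩
    have h2 : X ^ (2 / 3 + ε) ≤ X0 ^ (2 / 3 + ε) :=
      Real.rpow_le_rpow hXp.le hsm.le (by positivity)
    have h3 : D0 * X ^ (2 / 3 + ε) ≤ D0 * X0 ^ (2 / 3 + ε) * (X ^ ε * (X / Y)) := by
      calc D0 * X ^ (2 / 3 + ε) ≤ D0 * X0 ^ (2 / 3 + ε) * 1 := by
            rw [mul_one]
            exact mul_le_mul_of_nonneg_left h2 hD0.le
        _ ≤ _ := mul_le_mul_of_nonneg_left hY0 (by positivity)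
    have h4 : 0 ≤ (D0 + (C1 + D1)) * (X ^ ε * (X / Y)) := by positivity
    calc (F.card : ℝ) ≤ D0 * X0 ^ (2 / 3 + ε) * (X ^ ε * (X / Y)) := h1.trans h3
      _ ≤ D0 * X0 ^ (2 / 3 + ε) * (X ^ ε * (X / Y)) +
          (D0 + (C1 + D1)) * (X ^ ε * (X / Y)) := by linarith
      _ = _ := by ring
  have hXX1 : X1 ≤ X := by
    rw [hX0e] at hlarge
    exact (le_max_left _ _).trans hlarge
  have hXL1 : Real.exp L1 ≤ X := by rw [hX0e] at hlarge; exact (le_max_right _ _).trans hlarge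
  obtain ⟨L, hL⟩ : ∃ L, L = Real.log X := ⟨_, rfl⟩
  have hLL1 : L1 ≤ L := by rw [hL, Real.le_log_iff_exp_le hXp]; exact hXL1
  obtain ⟨F1, hF1⟩ : ∃ F1, F1 = F.filter fun x => hgt x ≤ L ^ (2 + η) := ⟨_, rfl⟩
  obtain ⟨F2, hF2⟩ : ∃ F2, F2 = F.filter fun x => ¬ hgt x ≤ L ^ (2 + η) := ⟨_, rfl⟩
  have hcard : (F.card : ℝ) = F1.card + F2.card := by
    have : F.card = F1.card + F2.card := by
      rw [hF1, hF2]
      exact (Finset.card_filter_add_card_filter_not (s := F)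
        (fun x => hgt x ≤ L ^ (2 + η))).symm
    rw [this, Nat.cast_add]
  -- small heights
  have d1 : (F1.card : ℝ) ≤ C1 * (X ^ ε * (X / Y)) := by
    have h1 := hsmall X hX (by rw [← hL]; exact hLL1) (X / Y) hXY1
      (div_le_self hXp.le hY) F1 (fun x hx => by
      rw [hF1, mem_filter] at hx
      obtain ⟨a1, a2, p, a3, a4⟩ := hF x hx.1
      obtain ⟨i, j, hij, h1⟩ := pair_primeK a1 a3
      refine ⟨a1, by rw [← hL]; exact hx.2, i, j, hij, ?_⟩
      rw [Real.log_div hXp.ne' hYp.ne']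
      have h2 := Real.log_le_log hYp a4
      have h3 := Real.log_le_log (nn_pos _) a2
      linarith)
    rw [mul_comm (X / Y)] at h1
    exact h1
  -- large heights
  have hM2 : X / Y ≤ X ^ (2 / 3 + 1 / (k : ℝ)) := by
    have h1 : X / Y ≤ X ^ (2 / 3 : ℝ) := by
      rw [div_le_iff₀ hYp]
      calc X = X ^ (2 / 3 : ℝ) * X ^ (1 / 3 : ℝ) := by
            rw [← Real.rpow_add hXp]
            norm_num
        _ ≤ _ := mul_le_mul_of_nonneg_left hc.le (by positivity)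
    refine h1.trans (Real.rpow_le_rpow_of_exponent_le hX ?_)
    have : 0 < 1 / (k : ℝ) := by positivity
    linarith
  have d2 : (F2.card : ℝ) ≤ D1 * (X ^ ε * (X / Y)) := by
    have h1 := hcnt X hXX1 (X / Y) hXY1 hM2 F2 (fun x hx => by
      rw [hF2, mem_filter] at hx
      obtain ⟨a1, a2, p, a3, a4⟩ := hF x hx.1
      obtain ⟨A, B, E, hAB, hBE, hAE, hP⟩ := inP_erase (k := k) (by omega) a1 a3
      refine ⟨a1, a2, (sp x).erase p, ?_, Or.inr ⟨?_, A, B, E, p, hAB, hBE, hAE, hP⟩⟩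
      · have h3 : nn (sp x) = Nv p * nn ((sp x).erase p) := by
          unfold nn
          rw [Finset.mul_prod_erase (sp x) _ a3]
        rw [le_div_iff₀ hYp]
        have h4 := nn_pos ((sp x).erase p)
        nlinarith
      · rw [← hL]
        exact (not_le.1 hx.2).le)
    refine h1.trans ?_
    refine mul_le_mul_of_nonneg_left ?_ hD1.le
    rw [mul_comm]
    exact mul_le_mul_of_nonneg_right (Real.rpow_le_rpow_of_exponent_le hX hkε) hXYp.le
  have h5 : 0 ≤ (D0 + D0 * X0 ^ (2 / 3 + ε)) * (X ^ ε * (X / Y)) := by positivity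
  rw [hcard]
  calc (F1.card : ℝ) + F2.card ≤ C1 * (X ^ ε * (X / Y)) + D1 * (X ^ ε * (X / Y)) :=
        add_le_add d1 d2
    _ ≤ C1 * (X ^ ε * (X / Y)) + D1 * (X ^ ε * (X / Y)) +
        (D0 + D0 * X0 ^ (2 / 3 + ε)) * (X ^ ε * (X / Y)) := by linarith
    _ = _ := by ring

end Run7.h283.MK
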